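import Mathlib

set_option autoImplicit false
open MeasureTheory Filter Topology ProbabilityTheory

namespace Pool.Agent.H0.UCEM

section pair
variable {ι : Type*} {Y : Type*} [MeasurableSpace Y] (P : ι → Measure Y) [∀ i, IsProbabilityMeasure (P i)]

theorem pair_map :
    (Measure.infinitePi (fun p : Bool × ι => P p.2)).map
      (fun q : Bool × ι → Y => ((fun j => q (false, j)), (fun j => q (true, j))))
      = (Measure.infinitePi P).prod (Measure.infinitePi P) := by
  have h1 := Measure.infinitePi_map_curry (fun (_ : Bool) (j : ι) => P j)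
  have h2 := Measure.infinitePi_map_eval_prod (P := fun _ : Bool => Measure.infinitePi P) (i := false) (j := true) (by decide)
  rw [← h2, ← h1, Measure.map_map (by fun_prop) (by fun_prop)]
  rfl

end pair

section traj
variable {X W : Type*} [MeasurableSpace X] [MeasurableSpace W]

/-- trajectory driven by the noise -/
def traj (T : X × W → X) (x : X) (w : ℕ → W) : ℕ → X
  | 0 => x
  | n + 1 => T (traj T x w n, w n)

theorem measurable_traj {T : X × W → X} (hT : Measurable T) :
    Measurable (fun p : X × (ℕ → W) => traj T p.1 p.2) := by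
  rw [measurable_pi_iff]
  intro n
  induction n with
  | zero => exact measurable_fst
  | succ n ih =>
    exact hT.comp (ih.prodMk (by fun_prop))

def glue (n : ℕ) (w w' : ℕ → W) : ℕ → W := fun i => if i < n then w i else w' (i - n)

theorem traj_glue_le (T : X × W → X) (n : ℕ) (x : X) (w w' : ℕ → W) (i : ℕ) (hi : i ≤ n) :
    traj T x (glue n w w') i = traj T x w i := by
  induction i with
  | zero => rfl
  | succ i ih =>
    have : i < n := hi
    simp only [traj, ih (by omega), glue, this, if_true]

theorem traj_glue_add (T : X × W → X) (n : ℕ) (x : X) (w w' : ℕ → W) (i : ℕ) :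
    traj T x (glue n w w') (n + i) = traj T (traj T x w n) w' i := by
  induction i with
  | zero => simpa [traj] using traj_glue_le T n x w w' n le_rfl
  | succ i ih =>
    rw [← add_assoc]
    simp only [traj, ih, glue]
    simp

variable (ν : Measure W) [IsProbabilityMeasure ν]

theorem measurePreserving_glue (n : ℕ) :
    MeasurePreserving (fun p : (ℕ → W) × (ℕ → W) => glue n p.1 p.2)
      ((Measure.infinitePi fun _ : ℕ => ν).prod (Measure.infinitePi fun _ : ℕ => ν))
      (Measure.infinitePi fun _ : ℕ => ν) := by
  have hm : Measurable (fun p : (ℕ → W) × (ℕ → W) => glue n p.1 p.2) := by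
    rw [measurable_pi_iff]
    intro i
    unfold glue
    split_ifs <;> fun_prop
  refine ⟨hm, ?_⟩
  rw [← pair_map, Measure.map_map hm (by fun_prop)]
  let f : ℕ → Bool × ℕ := fun i => if i < n then (false, i) else (true, i - n)
  have hf : Function.Injective f := by
    intro a b hab
    simp only [f] at hab
    split_ifs at hab <;> simp at hab <;> omega
  have h := Measure.map_infinitePi_infinitePi_of_inj (P := fun _ : Bool × ℕ => ν) hf
  have e : ((fun p : (ℕ → W) × (ℕ → W) => glue n p.1 p.2) ∘ fun q : Bool × ℕ → W => ((fun j => q (false, j)), (fun j => q (true, j))))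
      = fun (ω : Bool × ℕ → W) (i : ℕ) => ω (f i) := by
    funext q i
    simp only [Function.comp, glue, f]
    split_ifs <;> rfl
  rw [e]
  exact h

variable (μ : Measure X) [IsProbabilityMeasure μ]

/-- base space -/
noncomputable def base : Measure (X × (ℕ → W)) := μ.prod (Measure.infinitePi fun _ : ℕ => ν)

instance : IsProbabilityMeasure (base ν μ) := by unfold base; infer_instance

theorem measurePreserving_glue_base (n : ℕ) :
    MeasurePreserving (fun p : (X × (ℕ → W)) × (ℕ → W) => (p.1.1, glue n p.1.2 p.2))
      ((base ν μ).prod (Measure.infinitePi fun _ : ℕ => ν)) (base ν μ) := by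
  have h1 := (MeasurePreserving.id μ).prod (measurePreserving_glue ν n)
  have h2 := MeasureTheory.measurePreserving_prodAssoc μ (Measure.infinitePi fun _ : ℕ => ν) (Measure.infinitePi fun _ : ℕ => ν)
  exact h1.comp h2

/-- law of the trajectory -/
noncomputable def law (T : X × W → X) : Measure (ℕ → X) := (base ν μ).map (fun p => traj T p.1 p.2)

theorem law_isProb {T : X × W → X} (hT : Measurable T) : IsProbabilityMeasure (law ν μ T) :=
  Measure.isProbabilityMeasure_map (measurable_traj hT).aemeasurable

theorem law_shift {T : X × W → X} (hT : Measurable T) (hinv : (μ.prod ν).map T = μ) :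
    (law ν μ T).map (fun (ω : ℕ → X) (n : ℕ) => ω (n + 1)) = law ν μ T := by
  unfold law
  rw [Measure.map_map (by fun_prop) (measurable_traj hT)]
  conv_lhs => rw [← (measurePreserving_glue_base ν μ 1).map_eq]
  rw [Measure.map_map ((by fun_prop : Measurable fun (ω : ℕ → X) (n : ℕ) => ω (n + 1)).comp (measurable_traj hT)) (measurePreserving_glue_base ν μ 1).measurable]
  have e : (((fun (ω : ℕ → X) (n : ℕ) => ω (n + 1)) ∘ fun p : X × (ℕ → W) => traj T p.1 p.2) ∘
      fun p : (X × (ℕ → W)) × (ℕ → W) => (p.1.1, glue 1 p.1.2 p.2))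
      = (fun p : X × (ℕ → W) => traj T p.1 p.2) ∘ (fun p : (X × (ℕ → W)) × (ℕ → W) => (T (p.1.1, p.1.2 0), p.2)) := by
    funext p n
    simp only [Function.comp]
    rw [add_comm n 1, traj_glue_add]
    rfl
  rw [e, ← Measure.map_map (measurable_traj hT) (by fun_prop)]
  congr 1
  have h3 : MeasurePreserving (fun p : X × (ℕ → W) => T (p.1, p.2 0)) (base ν μ) μ := by
    have h1 := (MeasurePreserving.id μ).prod (measurePreserving_eval_infinitePi (fun _ : ℕ => ν) 0)
    exact (⟨hT, hinv⟩ : MeasurePreserving T (μ.prod ν) μ).comp h1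
  exact (h3.prod (MeasurePreserving.id (Measure.infinitePi fun _ : ℕ => ν))).map_eq

theorem law_zero {T : X × W → X} (hT : Measurable T) :
    (law ν μ T).map (fun ω : ℕ → X => ω 0) = μ := by
  unfold law
  rw [Measure.map_map (by fun_prop) (measurable_traj hT)]
  exact Measure.fst_prod

end traj

end Pool.Agent.H0.UCEM
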