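import Mathlib
import Pool.Agent.H0.UCEM.Chain

set_option autoImplicit false
open MeasureTheory Filter Topology ProbabilityTheory

namespace Pool.Agent.H0.UCEM

variable {X W : Type*} [MeasurableSpace X] [MeasurableSpace W]
variable (ν : Measure W) [IsProbabilityMeasure ν] (μ : Measure X) [IsProbabilityMeasure μ]

theorem integrable_of_bdd {Ω : Type*} [MeasurableSpace Ω] {P : Measure Ω} [IsProbabilityMeasure P] {f : Ω → ℝ}
    (hf : Measurable f) (C : ℝ) (hb : ∀ ω, |f ω| ≤ C) : Integrable f P :=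
  Integrable.of_bound hf.aestronglyMeasurable C (Filter.Eventually.of_forall (by simpa using hb))

theorem markov {T : X × W → X} (hT : Measurable T) (F h : (ℕ → X) → ℝ) (hF : Measurable F)
    (hh : Measurable h) (C D : ℝ) (hC : 0 ≤ C) (hFb : ∀ ω, |F ω| ≤ C) (hhb : ∀ ω, |h ω| ≤ D) (n : ℕ)
    (hdep : ∀ ω ω', (∀ i ≤ n, ω i = ω' i) → F ω = F ω') :
    ∫ ω, F ω * h (fun i => ω (n + i)) ∂(law ν μ T)
      = ∫ ω, F ω * (∫ w, h (traj T (ω n) w) ∂(Measure.infinitePi fun _ : ℕ => ν)) ∂(law ν μ T) := by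
  have htr := measurable_traj hT
  have hm1 : Measurable (fun p : X × (ℕ → W) => F (traj T p.1 p.2)) := hF.comp htr
  have hm2 : Measurable (fun p : (X × (ℕ → W)) × (ℕ → W) => h (traj T (traj T p.1.1 p.1.2 n) p.2)) := by
    refine hh.comp (htr.comp (Measurable.prodMk ?_ measurable_snd))
    exact ((measurable_pi_apply n).comp htr).comp measurable_fst
  have hmsh : Measurable (fun ω : ℕ → X => F ω * h (fun i => ω (n + i))) := by
    refine hF.mul (hh.comp ?_)
    fun_prop
  have hmL : Measurable (fun ω : ℕ → X => (∫ w, h (traj T (ω n) w) ∂(Measure.infinitePi fun _ : ℕ => ν))) := by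
    have : StronglyMeasurable (fun p : (ℕ → X) × (ℕ → W) => h (traj T (p.1 n) p.2)) := by
      have h1 : Measurable (fun p : (ℕ → X) × (ℕ → W) => (p.1 n, p.2)) := by fun_prop
      exact (hh.comp (htr.comp h1)).stronglyMeasurable
    exact (this.integral_prod_right').measurable
  have hmR : Measurable (fun ω : ℕ → X => F ω * (∫ w, h (traj T (ω n) w) ∂(Measure.infinitePi fun _ : ℕ => ν))) :=
    hF.mul hmL
  unfold law
  rw [integral_map htr.aemeasurable hmsh.aestronglyMeasurable,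
    integral_map htr.aemeasurable hmR.aestronglyMeasurable]
  conv_lhs => rw [← (measurePreserving_glue_base ν μ n).map_eq]
  have hmsh2 : Measurable (fun p : X × (ℕ → W) => F (traj T p.1 p.2) * h (fun i => traj T p.1 p.2 (n + i))) :=
    hmsh.comp htr
  rw [integral_map (measurePreserving_glue_base ν μ n).measurable.aemeasurable
    hmsh2.aestronglyMeasurable]
  have e : ∀ p : (X × (ℕ → W)) × (ℕ → W), F (traj T p.1.1 (glue n p.1.2 p.2)) * h (fun i => traj T p.1.1 (glue n p.1.2 p.2) (n + i))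
      = F (traj T p.1.1 p.1.2) * h (traj T (traj T p.1.1 p.1.2 n) p.2) := by
    intro p
    congr 1
    · exact hdep _ _ fun i hi => traj_glue_le T n _ _ _ i hi
    · congr 1
      funext i
      exact traj_glue_add T n _ _ _ i
  simp only [e]
  rw [integral_prod]
  · simp only [integral_const_mul]
  · refine integrable_of_bdd ((hm1.comp measurable_fst).mul hm2) (C * D) ?_
    intro p
    rw [abs_mul]
    exact mul_le_mul (hFb _) (hhb _) (abs_nonneg _) hC


/-- one-step operator -/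
noncomputable def K (T : X × W → X) (g : X → ℝ) (x : X) : ℝ := ∫ w, g (T (x, w)) ∂ν

theorem measurable_K {T : X × W → X} (hT : Measurable T) {g : X → ℝ} (hg : Measurable g) :
    Measurable (K ν T g) := by
  have : StronglyMeasurable (fun p : X × W => g (T (p.1, p.2))) := (hg.comp (hT.comp (by fun_prop))).stronglyMeasurable
  exact this.integral_prod_right'.measurable

theorem K_bdd {T : X × W → X} {g : X → ℝ} {C : ℝ} (hg : ∀ x, |g x| ≤ C) (x : X) :
    |K ν T g x| ≤ C := by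
  unfold K
  have := norm_integral_le_of_norm_le_const (μ := ν) (f := fun w => g (T (x, w))) (C := C)
    (Filter.Eventually.of_forall (by simpa using fun w => hg (T (x, w))))
  simpa using this

theorem K_mean {T : X × W → X} (hT : Measurable T) (hinv : (μ.prod ν).map T = μ) {g : X → ℝ} (hg : Measurable g) {C : ℝ}
    (hgb : ∀ x, |g x| ≤ C) : ∫ x, K ν T g x ∂μ = ∫ x, g x ∂μ := by
  conv_rhs => rw [← hinv]
  rw [integral_map hT.aemeasurable hg.aestronglyMeasurable, integral_prod]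
  · rfl
  · exact integrable_of_bdd (hg.comp hT) C fun _ => hgb _

theorem markov_step {T : X × W → X} (hT : Measurable T) (F : (ℕ → X) → ℝ) (hF : Measurable F)
    (g : X → ℝ) (hg : Measurable g)
    (C D : ℝ) (hC : 0 ≤ C) (hFb : ∀ ω, |F ω| ≤ C) (hgb : ∀ ω, |g ω| ≤ D) (n : ℕ)
    (hdep : ∀ ω ω', (∀ i ≤ n, ω i = ω' i) → F ω = F ω') :
    ∫ ω, F ω * g (ω (n + 1)) ∂(law ν μ T) = ∫ ω, F ω * K ν T g (ω n) ∂(law ν μ T) := by
  have h := markov ν μ hT F (fun ω => g (ω 1)) hF (hg.comp (measurable_pi_apply 1)) C D hC hFb (fun _ => hgb _) n hdep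
  rw [h]
  congr 1
  funext ω
  congr 1
  unfold K
  have h0 := (measurePreserving_eval_infinitePi (fun _ : ℕ => ν) 0).map_eq
  conv_rhs => rw [← h0]
  rw [integral_map (measurable_pi_apply 0).aemeasurable]
  · rfl
  · exact (hg.comp (hT.comp (by fun_prop))).aestronglyMeasurable

theorem markov_iter {T : X × W → X} (hT : Measurable T) (F : (ℕ → X) → ℝ) (hF : Measurable F)
    (C D : ℝ) (hC : 0 ≤ C) (hFb : ∀ ω, |F ω| ≤ C) (l : ℕ)
    (hdep : ∀ ω ω', (∀ i ≤ l, ω i = ω' i) → F ω = F ω') (k : ℕ)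
    (g : X → ℝ) (hg : Measurable g) (hgb : ∀ ω, |g ω| ≤ D) :
    ∫ ω, F ω * g (ω (l + k)) ∂(law ν μ T) = ∫ ω, F ω * (K ν T)^[k] g (ω l) ∂(law ν μ T) := by
  induction k generalizing g with
  | zero => rfl
  | succ k ih =>
    rw [Function.iterate_succ_apply, ← ih (K ν T g) (measurable_K ν hT hg) (K_bdd ν hgb), ← add_assoc]
    exact markov_step ν μ hT F hF g hg C D hC hFb hgb (l + k) fun ω ω' h => hdep ω ω' fun i hi => h i (by omega)

theorem iter_bdd {T : X × W → X} (hT : Measurable T) (hinv : (μ.prod ν).map T = μ) (ρ : ℝ) (hρ : 0 ≤ ρ)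
    (hcontr : ∀ (g : X → ℝ) (C : ℝ), Measurable g → (∀ x, |g x| ≤ C) → ∫ x, g x ∂μ = 0 →
      ∫ x, (K ν T g x)^2 ∂μ ≤ ρ * ∫ x, (g x)^2 ∂μ)
    (k : ℕ) (g : X → ℝ) (C : ℝ) (hg : Measurable g) (hgb : ∀ x, |g x| ≤ C) (h0 : ∫ x, g x ∂μ = 0) :
    Measurable ((K ν T)^[k] g) ∧ (∀ x, |(K ν T)^[k] g x| ≤ C) ∧ ∫ x, ((K ν T)^[k] g x)^2 ∂μ ≤ ρ^k * ∫ x, (g x)^2 ∂μ := by
  induction k generalizing g with
  | zero => simpa using ⟨hg, hgb⟩
  | succ k ih =>
    rw [Function.iterate_succ_apply]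
    obtain ⟨h1, h2, h3⟩ := ih (K ν T g) (measurable_K ν hT hg) (K_bdd ν hgb) (by rw [K_mean ν μ hT hinv hg hgb, h0])
    refine ⟨h1, h2, h3.trans ?_⟩
    rw [pow_succ, mul_assoc]
    exact mul_le_mul_of_nonneg_left (hcontr g C hg hgb h0) (by positivity)

end Pool.Agent.H0.UCEM
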