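import Mathlib
import Pool.Agent.H0.UCEM.Markov

set_option autoImplicit false
open MeasureTheory Filter Topology ProbabilityTheory

namespace Pool.Agent.H0.UCEM

open scoped ENNReal

/-- Bernoulli(1/(j+2)) -/
noncomputable def ber (j : ℕ) : Measure Bool :=
  ((j : ℝ≥0∞) + 2)⁻¹ • Measure.dirac true + (1 - ((j : ℝ≥0∞) + 2)⁻¹) • Measure.dirac false

noncomputable def fair : Measure Bool := (2 : ℝ≥0∞)⁻¹ • Measure.dirac true + (2 : ℝ≥0∞)⁻¹ • Measure.dirac false

instance (j : ℕ) : IsProbabilityMeasure (ber j) := by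
  constructor
  have h : ((j : ℝ≥0∞) + 2)⁻¹ ≤ 1 := by
    rw [ENNReal.inv_le_one]
    exact le_trans (by norm_num) le_add_self
  simp [ber, add_tsub_cancel_of_le h]

instance : IsProbabilityMeasure fair := by
  constructor
  simp [fair, ENNReal.inv_two_add_inv_two]

theorem ber_true (j : ℕ) : ber j {true} = ((j : ℝ≥0∞) + 2)⁻¹ := by simp [ber]
theorem fair_false : fair {false} = (2 : ℝ≥0∞)⁻¹ := by simp [fair]

theorem fair_not : fair.map (fun b => !b) = fair := by
  unfold fair
  rw [Measure.map_add _ _ (by fun_prop), Measure.map_smul, Measure.map_smul, Measure.map_dirac' (by fun_prop), Measure.map_dirac' (by fun_prop), add_comm]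
  rfl

abbrev X := ℕ → Bool

noncomputable def μ0 : Measure X := Measure.infinitePi ber
noncomputable def ρ0 : Measure X := Measure.infinitePi fun _ => fair

instance : IsProbabilityMeasure μ0 := by unfold μ0; infer_instance
instance : IsProbabilityMeasure ρ0 := by unfold ρ0; infer_instance

def sel (r f x : X) : X := fun j => if r j then f j else x j

def T (p : X × (X × X)) : X := sel p.2.2 p.2.1 p.1

theorem measurable_sel3 : Measurable (fun p : X × X × X => sel p.1 p.2.1 p.2.2) := by
  rw [measurable_pi_iff]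
  intro j
  unfold sel
  refine Measurable.ite ?_ (by fun_prop) (by fun_prop)
  have : Measurable (fun p : X × X × X => p.1 j) := by fun_prop
  exact this (measurableSet_singleton true)

theorem measurable_T : Measurable T := by
  have : T = (fun p : X × X × X => sel p.1 p.2.1 p.2.2) ∘ (fun p : X × (X × X) => (p.2.2, p.2.1, p.1)) := rfl
  rw [this]
  exact measurable_sel3.comp (by fun_prop)

theorem measurable_selr (r : X) : Measurable (fun p : X × X => sel r p.2 p.1) := by
  exact measurable_sel3.comp (by fun_prop : Measurable (fun p : X × X => (r, p.2, p.1)))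

theorem mp_swap (r : X) : MeasurePreserving (fun p : X × X => (sel r p.2 p.1, sel r p.1 p.2)) (μ0.prod μ0) (μ0.prod μ0) := by
  have hm : Measurable (fun p : X × X => (sel r p.2 p.1, sel r p.1 p.2)) := by
    refine (measurable_selr r).prodMk ?_
    exact (measurable_selr r).comp measurable_swap
  refine ⟨hm, ?_⟩
  unfold μ0
  conv_lhs => rw [← pair_map]
  rw [Measure.map_map hm (by fun_prop)]
  let f : Bool × ℕ → Bool × ℕ := fun p => (if r p.2 then !p.1 else p.1, p.2)
  have hf : Function.Injective f := by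
    rintro ⟨a, i⟩ ⟨b, j⟩ hab
    simp only [f, Prod.mk.injEq] at hab
    obtain ⟨h1, rfl⟩ := hab
    by_cases hr : r i <;> simp [hr] at h1 <;> simp [h1]
  have h := Measure.map_infinitePi_infinitePi_of_inj (P := fun p : Bool × ℕ => ber p.2) hf
  have e : ((fun p : X × X => (sel r p.2 p.1, sel r p.1 p.2)) ∘ fun q : Bool × ℕ → Bool => ((fun j => q (false, j)), (fun j => q (true, j))))
      = (fun q : Bool × ℕ → Bool => ((fun j => q (false, j)), (fun j => q (true, j)))) ∘ fun (ω : Bool × ℕ → Bool) (i : Bool × ℕ) => ω (f i) := by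
    funext q
    refine Prod.ext ?_ ?_ <;> funext j <;> by_cases hr : r j <;> simp [sel, f, hr]
  rw [e, ← Measure.map_map (by fun_prop) (by fun_prop), h]
  have : (fun i : Bool × ℕ => ber (f i).2) = fun i : Bool × ℕ => ber i.2 := rfl
  rw [this, pair_map]

theorem mp_selr (r : X) : MeasurePreserving (fun p : X × X => sel r p.2 p.1) (μ0.prod μ0) μ0 :=
  measurePreserving_fst.comp (mp_swap r)

theorem mp_not : MeasurePreserving (fun (r : X) (j : ℕ) => !(r j)) ρ0 ρ0 := by
  refine ⟨by fun_prop, ?_⟩
  unfold ρ0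
  have := Measure.infinitePi_map_pi (μ := fun _ : ℕ => fair) (f := fun _ b => !b) (fun _ => by fun_prop)
  rw [this]
  simp only [fair_not]

noncomputable def ν : Measure (X × X) := μ0.prod ρ0
instance : IsProbabilityMeasure ν := by unfold ν; infer_instance

theorem T_inv : (μ0.prod ν).map T = μ0 := by
  have hT := measurable_T
  ext s hs
  rw [Measure.map_apply hT hs]
  -- compute via lintegral over r
  have h1 : (μ0.prod ν) (T ⁻¹' s) = ∫⁻ x, ∫⁻ f, ∫⁻ r, s.indicator 1 (sel r f x) ∂ρ0 ∂μ0 ∂μ0 := by
    rw [← lintegral_indicator_one (hT hs)]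
    rw [lintegral_prod _ ((measurable_one.indicator (hT hs)).aemeasurable)]
    refine lintegral_congr fun x => ?_
    unfold ν
    rw [lintegral_prod]
    · rfl
    · exact ((measurable_one.indicator (hT hs)).comp (by fun_prop)).aemeasurable
  have hmeas : Measurable (fun p : X × X × X => (s.indicator (1 : X → ℝ≥0∞)) (sel p.1 p.2.1 p.2.2)) :=
    (measurable_one.indicator hs).comp measurable_sel3
  have h2 : ∀ x, ∫⁻ f, ∫⁻ r, s.indicator (1 : X → ℝ≥0∞) (sel r f x) ∂ρ0 ∂μ0 = ∫⁻ r, ∫⁻ f, s.indicator 1 (sel r f x) ∂μ0 ∂ρ0 := by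
    intro x
    rw [lintegral_lintegral_swap]
    exact (hmeas.comp (by fun_prop : Measurable (fun p : X × X => (p.2, p.1, x)))).aemeasurable
  rw [h1]
  simp only [h2]
  rw [lintegral_lintegral_swap]
  · have h3 : ∀ r, ∫⁻ x, ∫⁻ f, s.indicator (1 : X → ℝ≥0∞) (sel r f x) ∂μ0 ∂μ0 = μ0 s := by
      intro r
      rw [lintegral_lintegral (f := fun x f => s.indicator (1 : X → ℝ≥0∞) (sel r f x))]
      · have := (mp_selr r).lintegral_comp (f := s.indicator (1 : X → ℝ≥0∞)) (measurable_one.indicator hs)
        rw [this, lintegral_indicator_one hs]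
      · exact (hmeas.comp (by fun_prop : Measurable (fun p : X × X => (r, p.2, p.1)))).aemeasurable
    simp only [h3]
    simp
  · have : Measurable (fun p : (X × X) × X => (s.indicator (1 : X → ℝ≥0∞)) (sel p.1.2 p.2 p.1.1)) :=
      hmeas.comp (by fun_prop : Measurable (fun p : (X × X) × X => (p.1.2, p.2, p.1.1)))
    exact this.lintegral_prod_right'.aemeasurable

end Pool.Agent.H0.UCEM
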