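import Mathlib
import Pool.Agent.H0.UCEM.Sel

set_option autoImplicit false
open MeasureTheory Filter Topology ProbabilityTheory

namespace Pool.Agent.H0.UCEM

noncomputable def Kr (r : X) (g : X → ℝ) (x : X) : ℝ := ∫ f, g (sel r f x) ∂μ0

def nt (r : X) : X := fun j => !(r j)

theorem measurable_nt : Measurable nt := by unfold nt; fun_prop

theorem measurable_Kr {g : X → ℝ} (hg : Measurable g) : Measurable (fun p : X × X => Kr p.1 g p.2) := by
  have : StronglyMeasurable (fun p : (X × X) × X => g (sel p.1.1 p.2 p.1.2)) :=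
    (hg.comp (measurable_sel3.comp (by fun_prop : Measurable (fun p : (X × X) × X => (p.1.1, p.2, p.1.2))))).stronglyMeasurable
  exact this.integral_prod_right'.measurable

theorem Kr_bdd {g : X → ℝ} {C : ℝ} (hg : ∀ x, |g x| ≤ C) (r x : X) : |Kr r g x| ≤ C := by
  unfold Kr
  have := norm_integral_le_of_norm_le_const (μ := μ0) (f := fun f => g (sel r f x)) (C := C)
    (Filter.Eventually.of_forall (by simpa using fun w => hg _))
  simpa using this

theorem sq_integral_le {Ω : Type*} [MeasurableSpace Ω] {P : Measure Ω} [IsProbabilityMeasure P] {f : Ω → ℝ}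
    (hf : Measurable f) (C : ℝ) (hb : ∀ ω, |f ω| ≤ C) : (∫ ω, f ω ∂P)^2 ≤ ∫ ω, (f ω)^2 ∂P := by
  have h1 : MemLp f 2 P := MemLp.of_bound hf.aestronglyMeasurable C (Filter.Eventually.of_forall (by simpa using hb))
  have h2 := variance_nonneg f P
  rw [variance_eq_sub h1] at h2
  simp only [Pi.pow_apply] at h2
  linarith

theorem Kr_sq {g : X → ℝ} (hg : Measurable g) {C : ℝ} (hgb : ∀ x, |g x| ≤ C) (r : X) :
    ∫ x, (Kr r g x)^2 ∂μ0 ≤ ∫ x, (g x)^2 ∂μ0 := by
  have hC : 0 ≤ C := le_trans (abs_nonneg _) (hgb (fun _ => true))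
  have hsel : Measurable (fun p : X × X => g (sel r p.2 p.1)) := hg.comp (measurable_selr r)
  have h1 : ∫ x, (g x)^2 ∂μ0 = ∫ x, ∫ f, (g (sel r f x))^2 ∂μ0 ∂μ0 := by
    conv_lhs => rw [← (mp_selr r).map_eq]
    rw [integral_map (measurable_selr r).aemeasurable (hg.pow_const 2).aestronglyMeasurable, integral_prod]
    refine integrable_of_bdd (hsel.pow_const 2) (C^2) ?_
    intro p
    rw [abs_pow]
    exact pow_le_pow_left₀ (abs_nonneg _) (hgb _) 2
  rw [h1]
  refine integral_mono ?_ ?_ ?_
  · refine integrable_of_bdd (((measurable_Kr hg).comp (by fun_prop : Measurable (fun x : X => (r, x)))).pow_const 2) (C^2) ?_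
    intro p
    rw [abs_pow]
    exact pow_le_pow_left₀ (abs_nonneg _) (Kr_bdd hgb _ _) 2
  · have : StronglyMeasurable (fun p : X × X => (g (sel r p.2 p.1))^2) := (hsel.pow_const 2).stronglyMeasurable
    refine integrable_of_bdd this.integral_prod_right'.measurable (C^2) ?_
    intro x
    have := norm_integral_le_of_norm_le_const (μ := μ0) (f := fun f => (g (sel r f x))^2) (C := C^2)
      (Filter.Eventually.of_forall (by
        intro f
        simp only [Real.norm_eq_abs, abs_pow]
        exact pow_le_pow_left₀ (abs_nonneg _) (hgb _) 2))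
    simpa using this
  · intro x
    exact sq_integral_le (hg.comp (measurable_sel3.comp (by fun_prop : Measurable (fun f : X => (r, f, x))))) C fun _ => hgb _

theorem Kr_orth {g : X → ℝ} (hg : Measurable g) {C : ℝ} (hgb : ∀ x, |g x| ≤ C) (h0 : ∫ x, g x ∂μ0 = 0) (r : X) :
    ∫ x, (Kr r g x) * (Kr (nt r) g x) ∂μ0 = 0 := by
  have hC : 0 ≤ C := le_trans (abs_nonneg _) (hgb (fun _ => true))
  have hH : Measurable (Kr (nt r) g) := (measurable_Kr hg).comp (by fun_prop : Measurable (fun x : X => (nt r, x)))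
  have hsel : Measurable (fun p : X × X => g (sel r p.2 p.1)) := hg.comp (measurable_selr r)
  have h1 : ∫ x, (Kr r g x) * (Kr (nt r) g x) ∂μ0 = ∫ p : X × X, g (sel r p.2 p.1) * Kr (nt r) g p.1 ∂(μ0.prod μ0) := by
    rw [integral_prod]
    · simp only [integral_mul_const]
      rfl
    · refine integrable_of_bdd (hsel.mul (hH.comp measurable_fst)) (C * C) ?_
      intro p
      rw [abs_mul]
      exact mul_le_mul (hgb _) (Kr_bdd hgb _ _) (abs_nonneg _) hC
  have h2 : ∀ p : X × X, g (sel r p.2 p.1) * Kr (nt r) g p.1 = (fun q : X × X => g q.1 * Kr (nt r) g q.2) (sel r p.2 p.1, sel r p.1 p.2) := by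
    intro p
    simp only
    congr 1
    unfold Kr
    congr 1
    funext f
    congr 1
    funext j
    by_cases hr : r j <;> simp [sel, nt, hr]
  have h3 : Measurable (fun q : X × X => g q.1 * Kr (nt r) g q.2) := (hg.comp measurable_fst).mul (hH.comp measurable_snd)
  rw [h1]
  simp only [h2]
  rw [← integral_map (f := fun q : X × X => g q.1 * Kr (nt r) g q.2) (mp_swap r).measurable.aemeasurable h3.aestronglyMeasurable, (mp_swap r).map_eq]
  rw [integral_prod_mul, h0, zero_mul]

theorem contr (g : X → ℝ) (C : ℝ) (hg : Measurable g) (hgb : ∀ x, |g x| ≤ C) (h0 : ∫ x, g x ∂μ0 = 0) :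
    ∫ x, (K ν T g x)^2 ∂μ0 ≤ (1/2) * ∫ x, (g x)^2 ∂μ0 := by
  have hC : 0 ≤ C := le_trans (abs_nonneg _) (hgb (fun _ => true))
  have hKm := measurable_Kr hg
  have hb : ∀ r x, |Kr r g x| ≤ C := Kr_bdd hgb
  have hmx : ∀ x, Measurable (fun r => Kr r g x) := fun x => hKm.comp (by fun_prop : Measurable (fun r : X => (r, x)))
  have hmr : ∀ r, Measurable (fun x => Kr r g x) := fun r => hKm.comp (by fun_prop : Measurable (fun x : X => (r, x)))
  have ha : ∀ x, K ν T g x = ∫ r, Kr r g x ∂ρ0 := by
    intro x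
    unfold K ν
    rw [integral_prod_symm]
    · rfl
    · refine integrable_of_bdd (hg.comp (measurable_T.comp (by fun_prop : Measurable (fun w : X × X => (x, w))))) C fun _ => hgb _
  have hb2 : ∀ x, ∫ r, Kr r g x ∂ρ0 = ∫ r, Kr (nt r) g x ∂ρ0 := by
    intro x
    conv_lhs => rw [← mp_not.map_eq]
    rw [integral_map mp_not.measurable.aemeasurable (hmx x).aestronglyMeasurable]
    rfl
  let u : X → X → ℝ := fun r x => (Kr r g x + Kr (nt r) g x) / 2
  have hum : Measurable (fun p : X × X => u p.1 p.2) := by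
    refine (hKm.add (hKm.comp (?_ : Measurable (fun p : X × X => (nt p.1, p.2))))).div_const 2
    exact (measurable_nt.comp measurable_fst).prodMk measurable_snd
  have hub : ∀ r x, |u r x| ≤ C := by
    intro r x
    simp only [u]
    have h1 := hb r x
    have h2 := hb (nt r) x
    rw [abs_le] at *
    constructor <;> linarith [h1.1, h1.2, h2.1, h2.2]
  have hc : ∀ x, K ν T g x = ∫ r, u r x ∂ρ0 := by
    intro x
    simp only [u]
    rw [integral_div, integral_add, ← hb2 x, ha x]
    · ring
    · exact integrable_of_bdd (hmx x) C fun _ => hb _ _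
    · exact integrable_of_bdd ((hmx x).comp measurable_nt) C fun _ => hb _ _
  have hd : ∀ x, (K ν T g x)^2 ≤ ∫ r, (u r x)^2 ∂ρ0 := by
    intro x
    rw [hc x]
    exact sq_integral_le (hum.comp (by fun_prop : Measurable (fun r : X => (r, x)))) C fun _ => hub _ _
  have husq : ∀ r x, |(u r x)^2| ≤ C^2 := by
    intro r x
    rw [abs_pow]
    exact pow_le_pow_left₀ (abs_nonneg _) (hub _ _) 2
  have hf : ∀ r, ∫ x, (u r x)^2 ∂μ0 ≤ (1/2) * ∫ x, (g x)^2 ∂μ0 := by
    intro r
    have e : ∀ x, (u r x)^2 = (1/4) * (Kr r g x)^2 + (1/4) * (Kr (nt r) g x)^2 + (1/2) * ((Kr r g x) * (Kr (nt r) g x)) := by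
      intro x; simp only [u]; ring
    simp only [e]
    have hsq : ∀ r x, |(Kr r g x)^2| ≤ C^2 := by
      intro r x
      rw [abs_pow]
      exact pow_le_pow_left₀ (abs_nonneg _) (hb _ _) 2
    have i1 : Integrable (fun x => (1/4) * (Kr r g x)^2) μ0 := (integrable_of_bdd ((hmr r).pow_const 2) (C^2) fun _ => hsq _ _).const_mul _
    have i2 : Integrable (fun x => (1/4) * (Kr (nt r) g x)^2) μ0 := (integrable_of_bdd ((hmr (nt r)).pow_const 2) (C^2) fun _ => hsq _ _).const_mul _
    have i3 : Integrable (fun x => (1/2) * ((Kr r g x) * (Kr (nt r) g x))) μ0 := by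
      refine (integrable_of_bdd ((hmr r).mul (hmr (nt r))) (C*C) fun x => ?_).const_mul _
      rw [Pi.mul_apply, abs_mul]
      exact mul_le_mul (hb _ _) (hb _ _) (abs_nonneg _) hC
    have i12 : Integrable (fun x => (1/4) * (Kr r g x)^2 + (1/4) * (Kr (nt r) g x)^2) μ0 := i1.add i2
    rw [integral_add i12 i3, integral_add i1 i2, integral_const_mul, integral_const_mul, integral_const_mul, Kr_orth hg hgb h0 r]
    have j1 := Kr_sq hg hgb r
    have j2 := Kr_sq hg hgb (nt r)
    linarith
  have husm : Measurable (fun p : X × X => (u p.1 p.2)^2) := hum.pow_const 2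
  calc ∫ x, (K ν T g x)^2 ∂μ0 ≤ ∫ x, ∫ r, (u r x)^2 ∂ρ0 ∂μ0 := by
        refine integral_mono ?_ ?_ hd
        · refine integrable_of_bdd ((measurable_K ν measurable_T hg).pow_const 2) (C^2) ?_
          intro x
          rw [abs_pow]
          exact pow_le_pow_left₀ (abs_nonneg _) (K_bdd ν hgb x) 2
        · have : StronglyMeasurable (fun p : X × X => (u p.2 p.1)^2) := (husm.comp measurable_swap).stronglyMeasurable
          refine integrable_of_bdd this.integral_prod_right'.measurable (C^2) ?_
          intro x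
          have := norm_integral_le_of_norm_le_const (μ := ρ0) (f := fun r => (u r x)^2) (C := C^2)
            (Filter.Eventually.of_forall (fun r => husq r x))
          simpa using this
    _ = ∫ r, ∫ x, (u r x)^2 ∂μ0 ∂ρ0 := by
        rw [integral_integral_swap]
        exact integrable_of_bdd (husm.comp measurable_swap) (C^2) fun _ => husq _ _
    _ ≤ ∫ r, (1/2) * ∫ x, (g x)^2 ∂μ0 ∂ρ0 := by
        refine integral_mono ?_ (integrable_const _) hf
        refine integrable_of_bdd husm.stronglyMeasurable.integral_prod_right'.measurable (C^2) ?_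
        intro r
        have := norm_integral_le_of_norm_le_const (μ := μ0) (f := fun x => (u r x)^2) (C := C^2)
          (Filter.Eventually.of_forall (fun x => husq r x))
        simpa using this
    _ = _ := by simp

end Pool.Agent.H0.UCEM
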