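import Mathlib
import Pool.Agent.H0.UCEM.Sel

set_option autoImplicit false
open MeasureTheory Filter Topology ProbabilityTheory

namespace Pool.Agent.H0.UCEM
open scoped ENNReal

/-- coordinate functions -/
noncomputable def ff (j : ℕ) (x : X) : ℝ := if x j then 1 else 0

theorem measurable_ff (j : ℕ) : Measurable (ff j) := by
  unfold ff
  refine Measurable.ite ?_ measurable_const measurable_const
  have : Measurable (fun p : X => p j) := by fun_prop
  exact this (measurableSet_singleton true)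

theorem ms_true (j : ℕ) : MeasurableSet {x : X | x j = true} :=
  (by fun_prop : Measurable (fun p : X => p j)) (measurableSet_singleton true)

theorem ff_ind (j : ℕ) : ff j = {x : X | x j = true}.indicator 1 := by
  funext x
  by_cases h : x j <;> simp [ff, h]

theorem μ0_true (j : ℕ) : μ0 {x : X | x j = true} = ((j : ℝ≥0∞) + 2)⁻¹ := by
  rw [← ber_true, ← Measure.infinitePi_map_eval ber j, Measure.map_apply (by fun_prop) (measurableSet_singleton true)]
  rfl

theorem integral_ff (j : ℕ) : ∫ x, ff j x ∂μ0 = 1 / ((j : ℝ) + 2) := by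
  rw [ff_ind, integral_indicator_one (ms_true j), measureReal_def, μ0_true]
  rw [ENNReal.toReal_inv, one_div]
  congr 1

/-- run event -/
def E (m j : ℕ) : Set (X × (ℕ → X × X)) := {p | p.1 j = true ∧ ∀ i < m, (p.2 i).2 j = false}

theorem E_eq (m : ℕ) (s : Finset ℕ) : (⋂ j ∈ s, E m j) = (Set.pi (s : Set ℕ) (fun _ => ({true} : Set Bool))) ×ˢ
    (Set.pi ((Finset.range m : Finset ℕ) : Set ℕ) (fun _ => (Set.univ : Set X) ×ˢ (Set.pi (s : Set ℕ) (fun _ => ({false} : Set Bool))))) := by
  ext p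
  simp only [E, Set.mem_iInter, Set.mem_ofPred_eq, Set.mem_prod, Set.mem_pi, Finset.mem_coe, Set.mem_singleton_iff,
    Finset.mem_range, Set.mem_univ, true_and]
  constructor
  · intro h
    exact ⟨fun i hi => (h i hi).1, fun i hi j hj => (h j hj).2 i hi⟩
  · rintro ⟨h1, h2⟩ j hj
    exact ⟨h1 j hj, fun i hi => h2 i hi j hj⟩

theorem ms_E (m j : ℕ) : MeasurableSet (E m j) := by
  have h := E_eq m {j}
  simp only [Finset.mem_singleton, Set.iInter_iInter_eq_left] at h
  rw [h]
  refine MeasurableSet.prod (MeasurableSet.pi (Finset.countable_toSet _) fun _ _ => measurableSet_singleton _) ?_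
  refine MeasurableSet.pi (Finset.countable_toSet _) fun _ _ => ?_
  exact MeasurableSet.univ.prod (MeasurableSet.pi (Finset.countable_toSet _) fun _ _ => measurableSet_singleton _)

theorem meas_E (m : ℕ) (s : Finset ℕ) : (base ν μ0) (⋂ j ∈ s, E m j) = ∏ j ∈ s, (((j : ℝ≥0∞) + 2)⁻¹ * (2⁻¹)^m) := by
  rw [E_eq, base, Measure.prod_prod, μ0, Measure.infinitePi_pi _ (fun _ _ => measurableSet_singleton _),
    Measure.infinitePi_pi]
  · have : ν ((Set.univ : Set X) ×ˢ (Set.pi (s : Set ℕ) (fun _ => ({false} : Set Bool)))) = ∏ j ∈ s, (2⁻¹ : ℝ≥0∞) := by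
      rw [ν, Measure.prod_prod, ρ0, Measure.infinitePi_pi _ (fun _ _ => measurableSet_singleton _)]
      simp [fair_false]
    simp only [this, ber_true]
    rw [Finset.prod_mul_distrib, Finset.prod_comm]
    congr 1
    simp
  · intro i _
    exact MeasurableSet.univ.prod (MeasurableSet.pi (Finset.countable_toSet _) fun _ _ => measurableSet_singleton _)

theorem meas_E1 (m j : ℕ) : (base ν μ0) (E m j) = (((j : ℝ≥0∞) + 2)⁻¹ * (2⁻¹)^m) := by
  have h := meas_E m {j}
  simpa using h

theorem indep_E (m : ℕ) : iIndepSet (E m) (base ν μ0) := by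
  rw [iIndepSet_iff_meas_biInter (ms_E m)]
  intro s
  rw [meas_E]
  exact Finset.prod_congr rfl fun j _ => (meas_E1 m j).symm

theorem sum_E (m : ℕ) : ∑' j, (base ν μ0) (E m j) = ∞ := by
  simp only [meas_E1]
  rw [ENNReal.tsum_mul_right]
  have h : ∑' j : ℕ, (((j : ℝ≥0∞) + 2)⁻¹) = ∞ := by
    by_contra hne
    have h1 : Summable (fun j : ℕ => ((((j : ℝ≥0∞) + 2)⁻¹).toReal)) := ENNReal.summable_toReal hne
    have h2 : (fun j : ℕ => ((((j : ℝ≥0∞) + 2)⁻¹).toReal)) = fun j : ℕ => (((j + 2 : ℕ) : ℝ))⁻¹ := by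
      funext j
      rw [ENNReal.toReal_inv]
      congr 1
      rw [ENNReal.toReal_add (by simp) (by simp)]
      simp
    rw [h2] at h1
    rw [summable_nat_add_iff (f := fun n : ℕ => ((n : ℝ))⁻¹) 2] at h1
    exact Real.not_summable_natCast_inv h1
  rw [h]
  exact ENNReal.top_mul (pow_ne_zero _ (by simp))

theorem exists_E (m : ℕ) : (base ν μ0) {p | ∃ j, p ∈ E m j} = 1 := by
  have h := measure_limsup_eq_one (ms_E m) (indep_E m) (sum_E m)
  refine le_antisymm prob_le_one ?_
  rw [← h]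
  refine measure_mono ?_
  intro p hp
  have : ∃ᶠ n in atTop, p ∈ E m n := by
    exact mem_limsup_iff_frequently_mem.1 hp
  obtain ⟨j, hj⟩ := this.exists
  exact ⟨j, hj⟩

theorem traj_E {m j : ℕ} {p : X × (ℕ → X × X)} (hp : p ∈ E m j) (i : ℕ) (hi : i ≤ m) :
    traj T p.1 p.2 i j = true := by
  induction i with
  | zero => exact hp.1
  | succ i ih =>
    have h1 := hp.2 i (by omega)
    simp [traj, T, sel, h1, ih (by omega)]

theorem fail (m : ℕ) (hm : 0 < m) : 1 ≤ (law ν μ0 T) {ω : ℕ → X | ∃ f ∈ Set.range ff, (1/4 : ℝ) < |(1 / (m : ℝ)) * ∑ i ∈ Finset.range m, f (ω i) - ∫ y, f y ∂μ0|} := by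
  rw [← exists_E m, law]
  refine le_trans (measure_mono ?_) (Measure.le_map_apply (measurable_traj measurable_T).aemeasurable _)
  rintro p ⟨j, hj⟩
  refine ⟨ff j, ⟨j, rfl⟩, ?_⟩
  have h1 : ∀ i ∈ Finset.range m, ff j (traj T p.1 p.2 i) = 1 := by
    intro i hi
    rw [Finset.mem_range] at hi
    simp [ff, traj_E hj i hi.le]
  rw [Finset.sum_congr rfl h1, integral_ff]
  have hm' : (0:ℝ) < m := by exact_mod_cast hm
  have h2 : 1 / ((j:ℝ) + 2) ≤ 1/2 := by
    apply one_div_le_one_div_of_le (by norm_num)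
    have : (0:ℝ) ≤ j := Nat.cast_nonneg j
    linarith
  simp only [Finset.sum_const, Finset.card_range, nsmul_eq_mul, mul_one]
  rw [one_div_mul_cancel hm'.ne']
  rw [lt_abs]
  left
  linarith

end Pool.Agent.H0.UCEM
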