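import Mathlib
import Pool.Agent.H0.UCEM.Fail

set_option autoImplicit false
open MeasureTheory Filter Topology ProbabilityTheory

namespace Pool.Agent.H0.UCEM
open scoped ENNReal

def D (ε : ℝ) (m j : ℕ) : Set (Fin m → X) :=
  {x | ε < |(1 / (m : ℝ)) * ∑ i : Fin m, ff j (x i) - ∫ y, ff j y ∂μ0|}

theorem ff_bdd (j : ℕ) (x : X) : |ff j x| ≤ 1 := by
  by_cases h : x j <;> simp [ff, h]

theorem cheb (ε : ℝ) (hε : 0 < ε) (m j : ℕ) (hm : 0 < m) :
    Measure.pi (fun _ : Fin m => μ0) (D ε m j) ≤ ENNReal.ofReal (1 / (ε^2 * m)) := by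
  have hm' : (0:ℝ) < m := by exact_mod_cast hm
  have hmem : MemLp (ff j) 2 μ0 := MemLp.of_bound (measurable_ff j).aestronglyMeasurable 1 (Filter.Eventually.of_forall (by simpa using ff_bdd j))
  let Y : (Fin m → X) → ℝ := fun x => ∑ i : Fin m, ff j (x i)
  have hYm : Measurable Y := by
    refine Finset.measurable_sum _ fun i _ => (measurable_ff j).comp (measurable_pi_apply i)
  have hY : MemLp Y 2 (Measure.pi fun _ : Fin m => μ0) := by
    refine MemLp.of_bound hYm.aestronglyMeasurable m (Filter.Eventually.of_forall ?_)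
    intro x
    simp only [Y, Real.norm_eq_abs]
    refine (Finset.abs_sum_le_sum_abs _ _).trans ?_
    refine (Finset.sum_le_sum fun i _ => ff_bdd j (x i)).trans ?_
    simp
  have hE : ∫ x, Y x ∂(Measure.pi fun _ : Fin m => μ0) = m * ∫ y, ff j y ∂μ0 := by
    simp only [Y]
    rw [integral_finset_sum]
    · have : ∀ i : Fin m, ∫ x : Fin m → X, ff j (x i) ∂(Measure.pi fun _ : Fin m => μ0) = ∫ y, ff j y ∂μ0 := by
        intro i
        have h := (measurePreserving_eval (fun _ : Fin m => μ0) i)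
        conv_rhs => rw [← h.map_eq]
        rw [integral_map h.measurable.aemeasurable (measurable_ff j).aestronglyMeasurable]
      simp [this]
    · intro i _
      exact Integrable.of_bound ((measurable_ff j).comp (measurable_pi_apply i)).aestronglyMeasurable 1 (Filter.Eventually.of_forall (by simpa using fun x => ff_bdd j _))
  have hV : Var[Y; Measure.pi fun _ : Fin m => μ0] ≤ m := by
    have h1 : Y = ∑ i : Fin m, fun x : Fin m → X => ff j (x i) := by
      funext x; simp [Y]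
    rw [h1, variance_sum_pi (X := fun _ : Fin m => ff j) fun _ => hmem]
    have h2 : Var[ff j; μ0] ≤ 1 := by
      refine (variance_le_expectation_sq (measurable_ff j).aestronglyMeasurable).trans ?_
      have : ∫ x, (ff j ^ 2) x ∂μ0 ≤ ∫ x, (1:ℝ) ∂μ0 := by
        refine integral_mono hmem.integrable_sq (integrable_const _) ?_
        intro x
        by_cases h : x j <;> simp [ff, h]
      simpa using this
    calc ∑ i : Fin m, Var[ff j; μ0] ≤ ∑ i : Fin m, (1:ℝ) := Finset.sum_le_sum fun _ _ => h2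
      _ = m := by simp
  have hc := meas_ge_le_variance_div_sq hY (c := ε * m) (by positivity)
  refine (measure_mono ?_).trans (hc.trans ?_)
  · intro x hx
    simp only [D, Set.mem_ofPred_eq] at hx ⊢
    rw [hE]
    have : Y x - m * ∫ y, ff j y ∂μ0 = m * ((1 / (m : ℝ)) * ∑ i : Fin m, ff j (x i) - ∫ y, ff j y ∂μ0) := by
      simp only [Y]; field_simp
    rw [this, abs_mul, abs_of_pos hm', mul_comm ε]
    exact mul_le_mul_of_nonneg_left hx.le hm'.le
  · apply ENNReal.ofReal_le_ofReal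
    have : 1 / (ε^2 * m) = m / (ε * m)^2 := by field_simp
    rw [this]
    exact div_le_div_of_nonneg_right hV (by positivity)

theorem meas_T (m j : ℕ) (S : Finset (Fin m)) :
    Measure.pi (fun _ : Fin m => μ0) {x | ∀ i ∈ S, x i j = true} = (((j : ℝ≥0∞) + 2)⁻¹) ^ S.card := by
  have : {x : Fin m → X | ∀ i ∈ S, x i j = true} = Set.pi Set.univ (fun i => if i ∈ S then {y : X | y j = true} else Set.univ) := by
    ext x
    simp only [Set.mem_ofPred_eq, Set.mem_pi, Set.mem_univ, true_implies]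
    refine forall_congr' fun i => ?_
    by_cases h : i ∈ S <;> simp [h]
  rw [this, Measure.pi_pi]
  have : ∀ i : Fin m, μ0 (if i ∈ S then {y : X | y j = true} else Set.univ) = if i ∈ S then ((j : ℝ≥0∞) + 2)⁻¹ else 1 := by
    intro i
    by_cases h : i ∈ S <;> simp [h, μ0_true]
  simp only [this]
  rw [Finset.prod_ite_mem, Finset.univ_inter]
  simp

theorem tail_bound (ε : ℝ) (m j : ℕ) (hm : 0 < m) (hj : 1 / ((j:ℝ) + 2) ≤ ε) :
    Measure.pi (fun _ : Fin m => μ0) (D ε m j) ≤ 2^m * (((j : ℝ≥0∞) + 2)⁻¹) ^ (⌈ε * m⌉₊) := by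
  have hm' : (0:ℝ) < m := by exact_mod_cast hm
  have hsub : D ε m j ⊆ ⋃ S ∈ (Finset.univ : Finset (Finset (Fin m))).filter (fun S => ⌈ε * m⌉₊ ≤ S.card), {x | ∀ i ∈ S, x i j = true} := by
    intro x hx
    simp only [D, Set.mem_ofPred_eq, integral_ff] at hx
    have hs : ∑ i : Fin m, ff j (x i) = ((Finset.univ.filter fun i : Fin m => x i j = true).card : ℝ) := by
      simp [ff, Finset.sum_ite]
    rw [hs] at hx
    simp only [Set.mem_iUnion]
    refine ⟨Finset.univ.filter fun i : Fin m => x i j = true, ?_, ?_⟩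
    · rw [Finset.mem_filter]
      refine ⟨Finset.mem_univ _, ?_⟩
      rw [Nat.ceil_le]
      have h0 : 0 ≤ (1 / (m:ℝ)) * ((Finset.univ.filter fun i : Fin m => x i j = true).card : ℝ) := by positivity
      have hp : 0 < 1 / ((j:ℝ) + 2) := by positivity
      rcases lt_abs.1 hx with h | h
      · have h1 : ε < (1 / (m:ℝ)) * ((Finset.univ.filter fun i : Fin m => x i j = true).card : ℝ) := by linarith
        rw [one_div, inv_mul_eq_div, lt_div_iff₀ hm'] at h1
        exact h1.le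
      · linarith
    · intro i hi
      simpa using hi
  refine (measure_mono hsub).trans ?_
  refine (measure_biUnion_finset_le _ _).trans ?_
  calc ∑ S ∈ (Finset.univ : Finset (Finset (Fin m))).filter (fun S => ⌈ε * m⌉₊ ≤ S.card), Measure.pi (fun _ : Fin m => μ0) {x | ∀ i ∈ S, x i j = true}
      ≤ ∑ S ∈ (Finset.univ : Finset (Finset (Fin m))).filter (fun S => ⌈ε * m⌉₊ ≤ S.card), (((j : ℝ≥0∞) + 2)⁻¹) ^ (⌈ε * m⌉₊) := by
        refine Finset.sum_le_sum fun S hS => ?_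
        rw [meas_T]
        rw [Finset.mem_filter] at hS
        refine pow_le_pow_right_of_le_one' ?_ hS.2
        rw [ENNReal.inv_le_one]
        exact le_trans (by norm_num) le_add_self
    _ ≤ ∑ S ∈ (Finset.univ : Finset (Finset (Fin m))), (((j : ℝ≥0∞) + 2)⁻¹) ^ (⌈ε * m⌉₊) :=
        Finset.sum_le_sum_of_subset (Finset.filter_subset _ _)
    _ = _ := by simp

theorem iid (ε : ℝ) (hε : 0 < ε) :
    Tendsto (fun m : ℕ => Measure.pi (fun _ : Fin m => μ0)
        {x : Fin m → X | ∃ f ∈ Set.range ff,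
          ε < |(1 / (m : ℝ)) * ∑ i : Fin m, f (x i) - ∫ y, f y ∂μ0|}) atTop (𝓝 0) := by
  obtain ⟨a, ha⟩ := exists_nat_gt (1/ε)
  have ha0 : 1/ε < a := ha
  have haε : 1 < ε * a := by
    rw [div_lt_iff₀ hε] at ha0; linarith
  have hapos : 0 < a := by
    have : (0:ℝ) < a := lt_trans (by positivity) ha0
    exact_mod_cast this
  set J : ℕ := 4^a with hJ
  have hJa : (a:ℝ) ≤ J := by
    rw [hJ]
    have : a < 4^a := Nat.lt_pow_self (by norm_num)
    exact_mod_cast this.le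
  -- upper bound
  have hset : ∀ m : ℕ, {x : Fin m → X | ∃ f ∈ Set.range ff,
          ε < |(1 / (m : ℝ)) * ∑ i : Fin m, f (x i) - ∫ y, f y ∂μ0|} = ⋃ j, D ε m j := by
    intro m
    ext x
    simp only [D, Set.mem_ofPred_eq, Set.mem_iUnion, Set.mem_range, exists_exists_eq_and]
  simp only [hset]
  let A : ℕ → ℝ≥0∞ := fun m => ∑ j ∈ Finset.range J, ENNReal.ofReal (1 / (ε^2 * m))
  let cst : ℝ≥0∞ := ∑' j : ℕ, ((((j : ℝ≥0∞) + 1)⁻¹)^2)
  let B : ℕ → ℝ≥0∞ := fun m => (4^a)^2 * (2⁻¹)^m * cst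
  have hcst : cst ≠ ∞ := by
    have h1 : Summable (fun n : ℕ => (1:ℝ) / ((n:ℝ)+1)^2) := by
      have := (summable_nat_add_iff (f := fun n : ℕ => (1:ℝ) / (n:ℝ)^2) 1).2 (Real.summable_one_div_nat_pow.2 (by norm_num))
      simpa using this
    have h2 : ∀ j : ℕ, ((((j : ℝ≥0∞) + 1)⁻¹)^2) = ENNReal.ofReal ((1:ℝ) / ((j:ℝ)+1)^2) := by
      intro j
      rw [one_div, ENNReal.ofReal_inv_of_pos (by positivity), ENNReal.ofReal_pow (by positivity), ENNReal.ofReal_add (by positivity) (by norm_num)]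
      simp [ENNReal.inv_pow]
    simp only [cst, h2]
    exact h1.tsum_ofReal_ne_top
  have hA : Tendsto A atTop (𝓝 0) := by
    have : Tendsto (fun m : ℕ => ENNReal.ofReal (1 / (ε^2 * m))) atTop (𝓝 0) := by
      rw [← ENNReal.ofReal_zero]
      refine (ENNReal.continuous_ofReal.tendsto 0).comp ?_
      have h1 : Tendsto (fun m : ℕ => (1 / ε^2) * (1 / (m:ℝ))) atTop (𝓝 ((1/ε^2) * 0)) :=
        tendsto_one_div_atTop_nhds_zero_nat.const_mul _
      rw [mul_zero] at h1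
      refine h1.congr fun m => ?_
      rw [one_div_mul_one_div]
    have h2 := tendsto_finset_sum (Finset.range J) (fun _ _ => this)
    simpa [A] using h2
  have hB : Tendsto B atTop (𝓝 0) := by
    have h1 : Tendsto (fun m : ℕ => (2⁻¹ : ℝ≥0∞)^m) atTop (𝓝 0) :=
      ENNReal.tendsto_pow_atTop_nhds_zero_of_lt_one (by norm_num)
    have h2 : Tendsto (fun m : ℕ => ((4^a)^2 * cst) * (2⁻¹ : ℝ≥0∞)^m) atTop (𝓝 (((4^a)^2 * cst) * 0)) := by
      refine ENNReal.Tendsto.const_mul h1 (Or.inr ?_)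
      exact ENNReal.mul_ne_top (by simp) hcst
    rw [mul_zero] at h2
    refine h2.congr fun m => ?_
    simp only [B]; ring
  have hAB : Tendsto (fun m => A m + B m) atTop (𝓝 0) := by simpa using hA.add hB
  refine tendsto_of_tendsto_of_tendsto_of_le_of_le' tendsto_const_nhds hAB (Eventually.of_forall fun _ => zero_le) ?_
  filter_upwards [eventually_ge_atTop (2*a), eventually_gt_atTop 0] with m hm2 hm
  refine (measure_iUnion_le _).trans ?_
  rw [← ENNReal.summable.sum_add_tsum_nat_add' (f := fun j => Measure.pi (fun _ : Fin m => μ0) (D ε m j)) (k := J)]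
  refine add_le_add (Finset.sum_le_sum fun j _ => cheb ε hε m j hm) ?_
  simp only [B, cst]
  rw [← ENNReal.tsum_mul_left]
  refine ENNReal.tsum_le_tsum fun j => ?_
  have hm' : (0:ℝ) < m := by exact_mod_cast hm
  refine (tail_bound ε m (j + J) hm ?_).trans ?_
  · push_cast
    rw [div_le_iff₀ (by positivity)]
    have : (0:ℝ) ≤ j := Nat.cast_nonneg j
    nlinarith
  · set t := ⌈ε * m⌉₊ with ht
    have ht1 : ε * m ≤ t := Nat.le_ceil _
    have hat : m ≤ a * t := by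
      have : (m:ℝ) ≤ a * t := by
        have h1 : (a:ℝ) * (ε * m) ≤ a * t := mul_le_mul_of_nonneg_left ht1 (by positivity)
        nlinarith
      exact_mod_cast this
    have ht2 : 2 ≤ t := by
      by_contra hlt
      have : t ≤ 1 := by omega
      have : a * t ≤ a := by nlinarith
      omega
    obtain ⟨s, hs⟩ : ∃ s, t = s + 2 := ⟨t - 2, by omega⟩
    -- (j+J+2)^{-t} ≤ J^{-s} (j+1)^{-2}
    have hx1 : (((j + J : ℕ) : ℝ≥0∞) + 2)⁻¹ ≤ ((4:ℝ≥0∞)^a)⁻¹ := by
      rw [ENNReal.inv_le_inv]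
      rw [hJ]
      push_cast
      rw [add_comm (j:ℝ≥0∞), add_assoc]
      exact le_self_add
    have hx2 : (((j + J : ℕ) : ℝ≥0∞) + 2)⁻¹ ≤ ((j:ℝ≥0∞) + 1)⁻¹ := by
      rw [ENNReal.inv_le_inv]
      push_cast
      rw [add_assoc]
      refine add_le_add le_rfl ?_
      exact le_trans (by norm_num) le_add_self
    have h4 : ((4:ℝ≥0∞)^a)⁻¹ ^ s * ((4^a)^2)⁻¹ ≤ (4⁻¹)^m := by
      have e1 : (((4:ℝ≥0∞)^a)^2)⁻¹ = (((4:ℝ≥0∞)^a)⁻¹)^2 := ENNReal.inv_pow
      rw [e1, ← pow_add, ← hs, ← ENNReal.inv_pow, ← ENNReal.inv_pow, ENNReal.inv_le_inv, ← pow_mul]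
      exact pow_le_pow_right₀ (by norm_num) hat
    have h44 : ((4:ℝ≥0∞)^a)⁻¹ ^ s ≤ (4^a)^2 * (4⁻¹)^m := by
      have h5 : ((4:ℝ≥0∞)^a)^2 * ((4^a)^2)⁻¹ = 1 := ENNReal.mul_inv_cancel (by simp) (by simp)
      calc ((4:ℝ≥0∞)^a)⁻¹ ^ s = ((4:ℝ≥0∞)^a)⁻¹ ^ s * (((4:ℝ≥0∞)^a)^2 * ((4^a)^2)⁻¹) := by rw [h5, mul_one]
        _ = (4^a)^2 * (((4:ℝ≥0∞)^a)⁻¹ ^ s * ((4^a)^2)⁻¹) := by ring
        _ ≤ _ := mul_le_mul_right h4 _
    have h22 : (2:ℝ≥0∞)^m * (4⁻¹)^m = (2⁻¹)^m := by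
      rw [← mul_pow]
      congr 1
      have : (4:ℝ≥0∞) = 2 * 2 := by norm_num
      rw [this, ENNReal.mul_inv (by simp) (by simp), ← mul_assoc, ENNReal.mul_inv_cancel (by simp) (by simp), one_mul]
    calc (2:ℝ≥0∞)^m * (((j + J : ℕ) : ℝ≥0∞) + 2)⁻¹ ^ t
        = (2:ℝ≥0∞)^m * ((((j + J : ℕ) : ℝ≥0∞) + 2)⁻¹ ^ s * (((j + J : ℕ) : ℝ≥0∞) + 2)⁻¹ ^ 2) := by rw [hs, pow_add]
      _ ≤ (2:ℝ≥0∞)^m * (((4^a)^2 * (4⁻¹)^m) * (((j:ℝ≥0∞) + 1)⁻¹)^2) := by
          gcongr
          exact (pow_le_pow_left' hx1 s).trans h44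
      _ = (4^a)^2 * ((2:ℝ≥0∞)^m * (4⁻¹)^m) * (((j:ℝ≥0∞) + 1)⁻¹)^2 := by ring
      _ = _ := by rw [h22]

end Pool.Agent.H0.UCEM
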