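import Mathlib
import Pool.Agent.H0.UCEM.Markov

set_option autoImplicit false
open MeasureTheory Filter Topology ProbabilityTheory

namespace Pool.Agent.H0.UCEM

variable {X W : Type*} [mX : MeasurableSpace X] [MeasurableSpace W]
variable (ν : Measure W) [IsProbabilityMeasure ν] (μ : Measure X) [IsProbabilityMeasure μ]

omit [MeasurableSpace W] in
theorem past_sets (l : ℕ) (A : Set (ℕ → X))
    (hA : @MeasurableSet (ℕ → X) (⨆ (i : ℕ) (_ : i ≤ l), MeasurableSpace.comap (fun ω : ℕ → X => ω i) mX) A) :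
    MeasurableSet A ∧ ∀ ω ω' : ℕ → X, (∀ i ≤ l, ω i = ω' i) → (ω ∈ A ↔ ω' ∈ A) := by
  have hle : (⨆ (i : ℕ) (_ : i ≤ l), MeasurableSpace.comap (fun ω : ℕ → X => ω i) mX)
      ≤ MeasurableSpace.comap (fun (ω : ℕ → X) (i : {i : ℕ // i ≤ l}) => ω i) MeasurableSpace.pi := by
    refine iSup_le fun i => iSup_le fun hi => ?_
    rintro s ⟨t, ht, rfl⟩
    refine ⟨(fun x : {i : ℕ // i ≤ l} → X => x ⟨i, hi⟩) ⁻¹' t, measurable_pi_apply _ ht, rfl⟩
  obtain ⟨A', hA', rfl⟩ := hle A hA
  constructor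
  · exact (by fun_prop : Measurable (fun (ω : ℕ → X) (i : {i : ℕ // i ≤ l}) => ω i)) hA'
  · intro ω ω' h
    have : (fun (i : {i : ℕ // i ≤ l}) => ω i) = (fun (i : {i : ℕ // i ≤ l}) => ω' i) := by
      funext i; exact h i i.2
    simp only [Set.mem_preimage, this]

omit [MeasurableSpace W] in
theorem future_sets (n : ℕ) (S : Set (ℕ → X))
    (hS : @MeasurableSet (ℕ → X) (⨆ (i : ℕ) (_ : n ≤ i), MeasurableSpace.comap (fun ω : ℕ → X => ω i) mX) S) :
    ∃ S' : Set (ℕ → X), MeasurableSet S' ∧ S = (fun (ω : ℕ → X) (i : ℕ) => ω (n + i)) ⁻¹' S' := by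
  have hle : (⨆ (i : ℕ) (_ : n ≤ i), MeasurableSpace.comap (fun ω : ℕ → X => ω i) mX)
      ≤ MeasurableSpace.comap (fun (ω : ℕ → X) (i : ℕ) => ω (n + i)) MeasurableSpace.pi := by
    refine iSup_le fun i => iSup_le fun hi => ?_
    rintro s ⟨t, ht, rfl⟩
    refine ⟨(fun x : ℕ → X => x (i - n)) ⁻¹' t, measurable_pi_apply _ ht, ?_⟩
    ext ω
    simp only [Set.mem_preimage]
    rw [Nat.add_sub_cancel' hi]
  obtain ⟨S', hS', rfl⟩ := hle S hS
  exact ⟨S', hS', rfl⟩

theorem law_shift_iter {T : X × W → X} (hT : Measurable T) (hinv : (μ.prod ν).map T = μ) (n : ℕ) :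
    (law ν μ T).map (fun (ω : ℕ → X) (i : ℕ) => ω (n + i)) = law ν μ T := by
  induction n with
  | zero => simp
  | succ n ih =>
    have : (fun (ω : ℕ → X) (i : ℕ) => ω (n + 1 + i)) = (fun (ω : ℕ → X) (i : ℕ) => ω (i + 1)) ∘ (fun (ω : ℕ → X) (i : ℕ) => ω (n + i)) := by
      funext ω i
      simp only [Function.comp]
      congr 1; ring
    rw [this, ← Measure.map_map (by fun_prop) (by fun_prop), ih]
    exact law_shift ν μ hT hinv

theorem law_at {T : X × W → X} (hT : Measurable T) (hinv : (μ.prod ν).map T = μ) (n : ℕ) :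
    (law ν μ T).map (fun (ω : ℕ → X) => ω n) = μ := by
  have : (fun (ω : ℕ → X) => ω n) = (fun (ω : ℕ → X) => ω 0) ∘ (fun (ω : ℕ → X) (i : ℕ) => ω (n + i)) := rfl
  rw [this, ← Measure.map_map (by fun_prop) (by fun_prop), law_shift_iter ν μ hT hinv, law_zero ν μ hT]

theorem abs_integral_le_sqrt {Ω : Type*} [MeasurableSpace Ω] {P : Measure Ω} [IsProbabilityMeasure P] {f : Ω → ℝ}
    (hf : Measurable f) (C : ℝ) (hb : ∀ ω, |f ω| ≤ C) (D : ℝ) (hD : ∫ ω, (f ω)^2 ∂P ≤ D) :
    ∫ ω, |f ω| ∂P ≤ Real.sqrt D := by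
  apply Real.le_sqrt_of_sq_le
  refine le_trans ?_ hD
  have h1 : MemLp (fun ω => |f ω|) 2 P := MemLp.of_bound hf.abs.aestronglyMeasurable C (Filter.Eventually.of_forall (by simpa using hb))
  have h2 := variance_nonneg (fun ω => |f ω|) P
  rw [variance_eq_sub h1] at h2
  simp only [Pi.pow_apply, sq_abs] at h2
  linarith

theorem mixing {T : X × W → X} (hT : Measurable T) (hinv : (μ.prod ν).map T = μ) (ρ : ℝ) (hρ : 0 ≤ ρ)
    (hcontr : ∀ (g : X → ℝ) (C : ℝ), Measurable g → (∀ x, |g x| ≤ C) → ∫ x, g x ∂μ = 0 →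
      ∫ x, (K ν T g x)^2 ∂μ ≤ ρ * ∫ x, (g x)^2 ∂μ) (l k : ℕ) (A S : Set (ℕ → X))
    (hA : @MeasurableSet (ℕ → X) (⨆ (i : ℕ) (_ : i ≤ l), MeasurableSpace.comap (fun ω : ℕ → X => ω i) mX) A)
    (hS : @MeasurableSet (ℕ → X) (⨆ (i : ℕ) (_ : l + k ≤ i), MeasurableSpace.comap (fun ω : ℕ → X => ω i) mX) S) :
    |(law ν μ T).real (A ∩ S) - (law ν μ T).real A * (law ν μ T).real S| ≤ Real.sqrt (ρ ^ k) := by
  have := law_isProb ν μ hT
  obtain ⟨hAm, hAd⟩ := past_sets l A hA
  obtain ⟨S', hS', rfl⟩ := future_sets (l + k) S hS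
  set P := law ν μ T with hP
  set n := l + k with hn
  have hsh : Measurable (fun (ω : ℕ → X) (i : ℕ) => ω (n + i)) := by fun_prop
  have hSS : P.real ((fun (ω : ℕ → X) (i : ℕ) => ω (n + i)) ⁻¹' S') = P.real S' := by
    conv_rhs => rw [hP, ← law_shift_iter ν μ hT hinv n]
    rw [measureReal_def, measureReal_def, Measure.map_apply hsh hS']
  set c := P.real S' with hc
  have hc0 : 0 ≤ c := measureReal_nonneg
  have hc1 : c ≤ 1 := measureReal_le_one
  let F : (ℕ → X) → ℝ := A.indicator 1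
  let h : (ℕ → X) → ℝ := fun ω => S'.indicator 1 ω - c
  have hFm : Measurable F := measurable_one.indicator hAm
  have hhm : Measurable h := (measurable_one.indicator hS').sub measurable_const
  have hFb : ∀ ω, |F ω| ≤ 1 := by
    intro ω
    by_cases hω : ω ∈ A <;> simp [F, hω]
  have hhb : ∀ ω, |h ω| ≤ 1 := by
    intro ω
    by_cases hω : ω ∈ S' <;> simp [h, hω] <;> rw [abs_le] <;> constructor <;> linarith
  have hFd : ∀ ω ω' : ℕ → X, (∀ i ≤ l, ω i = ω' i) → F ω = F ω' := by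
    intro ω ω' hh
    have := hAd ω ω' hh
    by_cases h1 : ω ∈ A
    · have h2 : ω' ∈ A := this.1 h1
      simp [F, h1, h2]
    · have h2 : ω' ∉ A := fun h => h1 (this.2 h)
      simp [F, h1, h2]
  -- left side
  have e1 : ∫ ω, F ω * h (fun i => ω (n + i)) ∂P = P.real (A ∩ ((fun (ω : ℕ → X) (i : ℕ) => ω (n + i)) ⁻¹' S')) - P.real A * c := by
    have : (fun ω => F ω * h (fun i => ω (n + i))) = fun ω => (A ∩ ((fun (ω : ℕ → X) (i : ℕ) => ω (n + i)) ⁻¹' S')).indicator 1 ω - (A.indicator 1 ω) * c := by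
      funext ω
      by_cases h1 : ω ∈ A <;> by_cases h2 : (fun i => ω (n + i)) ∈ S' <;> simp [F, h, h1, h2, Set.indicator]
    rw [this, integral_sub, integral_mul_const]
    · rw [integral_indicator_one (hAm.inter (hsh hS')), integral_indicator_one hAm]
    · exact integrable_of_bdd (measurable_one.indicator (hAm.inter (hsh hS'))) 1 fun ω => by
        by_cases hω : ω ∈ (A ∩ ((fun (ω : ℕ → X) (i : ℕ) => ω (n + i)) ⁻¹' S')) <;> simp only [Set.indicator, hω] <;> simp
    · exact (integrable_of_bdd hFm 1 hFb).mul_const c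
  rw [hSS, ← e1]
  let L : X → ℝ := fun x => ∫ w, h (traj T x w) ∂(Measure.infinitePi fun _ : ℕ => ν)
  have hLm : Measurable L := by
    have : StronglyMeasurable (fun p : X × (ℕ → W) => h (traj T p.1 p.2)) := (hhm.comp (measurable_traj hT)).stronglyMeasurable
    exact this.integral_prod_right'.measurable
  have hLb : ∀ x, |L x| ≤ 1 := by
    intro x
    have := norm_integral_le_of_norm_le_const (μ := Measure.infinitePi fun _ : ℕ => ν) (f := fun w => h (traj T x w)) (C := 1)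
      (Filter.Eventually.of_forall (by simpa using fun w => hhb (traj T x w)))
    simpa using this
  have hL0 : ∫ x, L x ∂μ = 0 := by
    have e2 : ∫ ω, h ω ∂P = ∫ x, L x ∂μ := by
      rw [hP, law, integral_map (measurable_traj hT).aemeasurable hhm.aestronglyMeasurable, base, integral_prod]
      exact integrable_of_bdd (hhm.comp (measurable_traj hT)) 1 fun _ => hhb _
    rw [← e2]
    simp only [h]
    rw [integral_sub, integral_indicator_one hS', integral_const]
    · simp [hc]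
    · exact integrable_of_bdd (measurable_one.indicator hS') 1 fun ω => by
        by_cases hω : ω ∈ S' <;> simp only [Set.indicator, hω] <;> simp
    · exact integrable_const _
  have e3 : ∫ ω, F ω * h (fun i => ω (n + i)) ∂P = ∫ ω, F ω * L (ω n) ∂P :=
    markov ν μ hT F h hFm hhm 1 1 zero_le_one hFb hhb n fun ω ω' hh => hFd ω ω' fun i hi => hh i (by omega)
  have e4 : ∫ ω, F ω * L (ω n) ∂P = ∫ ω, F ω * (K ν T)^[k] L (ω l) ∂P :=
    markov_iter ν μ hT F hFm 1 1 zero_le_one hFb l hFd k L hLm hLb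
  obtain ⟨h1, h2, h3⟩ := iter_bdd ν μ hT hinv ρ hρ hcontr k L 1 hLm hLb hL0
  rw [e3, e4]
  have h4 : ∫ x, (L x)^2 ∂μ ≤ 1 := by
    have : ∫ x, (L x)^2 ∂μ ≤ ∫ x, (1:ℝ) ∂μ := by
      refine integral_mono (integrable_of_bdd (hLm.pow_const 2) 1 ?_) (integrable_const _) ?_
      · intro x
        rw [abs_pow]
        exact pow_le_one₀ (abs_nonneg _) (hLb x)
      · intro x
        have := hLb x
        have h5 := abs_nonneg (L x)
        show (L x)^2 ≤ 1
        rw [← sq_abs]
        nlinarith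
    simpa using this
  have h5 : ∫ x, ((K ν T)^[k] L x)^2 ∂μ ≤ ρ ^ k := by
    refine h3.trans ?_
    have : 0 ≤ ρ^k := by positivity
    nlinarith
  have h6 := abs_integral_le_sqrt h1 1 h2 (ρ^k) h5
  have h7 : ∫ ω, |(K ν T)^[k] L (ω l)| ∂P = ∫ x, |(K ν T)^[k] L x| ∂μ := by
    conv_rhs => rw [← law_at ν μ hT hinv l]
    rw [integral_map (measurable_pi_apply l).aemeasurable h1.abs.aestronglyMeasurable]
  calc |∫ ω, F ω * (K ν T)^[k] L (ω l) ∂P| ≤ ∫ ω, |F ω * (K ν T)^[k] L (ω l)| ∂P := abs_integral_le_integral_abs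
    _ ≤ ∫ ω, |(K ν T)^[k] L (ω l)| ∂P := by
        refine integral_mono ?_ ?_ ?_
        · refine integrable_of_bdd (hFm.mul (h1.comp (measurable_pi_apply l))).abs 1 ?_
          intro ω
          simp only [abs_mul, abs_abs, Pi.mul_apply]
          have := hFb ω
          have := h2 (ω l)
          have := abs_nonneg ((K ν T)^[k] L (ω l))
          have := abs_nonneg (F ω)
          nlinarith
        · refine integrable_of_bdd (h1.comp (measurable_pi_apply l)).abs 1 ?_
          intro ω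
          rw [abs_abs]
          exact h2 _
        · intro ω
          simp only [abs_mul]
          have := hFb ω
          have := abs_nonneg ((K ν T)^[k] L (ω l))
          nlinarith
    _ = _ := h7
    _ ≤ _ := h6

end Pool.Agent.H0.UCEM
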