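import Mathlib
import Pool.Agent.H0.UCEM.Iid
import Pool.Agent.H0.UCEM.Contr
import Pool.Agent.H0.UCEM.Mixing

set_option autoImplicit false
open MeasureTheory Filter Topology ProbabilityTheory

namespace Pool.Agent.H0.UCEM
open scoped ENNReal

theorem main : ¬ (∀ (X : Type) [mX : MeasurableSpace X] (P : Measure (ℕ → X)) [IsProbabilityMeasure P]
    (P0 : Measure X) [IsProbabilityMeasure P0] (𝓕 : Set (X → ℝ)) (B : ℝ),
    P.map (fun (ω : ℕ → X) (n : ℕ) => ω (n + 1)) = P →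
    P0 = P.map (fun (ω : ℕ → X) => ω 0) →
    (∀ ε : ℝ, 0 < ε → ∃ K : ℕ, ∀ k : ℕ, K ≤ k → ∀ l : ℕ, ∀ A S : Set (ℕ → X),
       @MeasurableSet (ℕ → X)
         (⨆ (i : ℕ) (_ : i ≤ l), MeasurableSpace.comap (fun ω : ℕ → X => ω i) mX) A →
       @MeasurableSet (ℕ → X)
         (⨆ (i : ℕ) (_ : l + k ≤ i), MeasurableSpace.comap (fun ω : ℕ → X => ω i) mX) S →
       |P.real (A ∩ S) - P.real A * P.real S| ≤ ε) →
    𝓕.Infinite →
    (∀ f ∈ 𝓕, Measurable f ∧ ∀ x, 0 ≤ f x ∧ f x ≤ B) →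
    (∀ ε : ℝ, 0 < ε →
      Tendsto (fun m : ℕ => Measure.pi (fun _ : Fin m => P0)
        {x : Fin m → X | ∃ f ∈ 𝓕,
          ε < |(1 / (m : ℝ)) * ∑ i : Fin m, f (x i) - ∫ y, f y ∂P0|}) atTop (𝓝 0)) →
    (∀ ε : ℝ, 0 < ε →
      Tendsto (fun m : ℕ => P
        {ω : ℕ → X | ∃ f ∈ 𝓕,
          ε < |(1 / (m : ℝ)) * ∑ i ∈ Finset.range m, f (ω i) - ∫ y, f y ∂P0|}) atTop (𝓝 0))) := by
  intro H
  have := law_isProb ν μ0 measurable_T
  have h := H X (law ν μ0 T) μ0 (Set.range ff) 1 (law_shift ν μ0 measurable_T T_inv)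
    (law_zero ν μ0 measurable_T).symm ?_ ?_ ?_ iid (1/4) (by norm_num)
  · have h1 : ∀ᶠ m : ℕ in atTop, (1 : ℝ≥0∞) ≤ (law ν μ0 T)
        {ω : ℕ → X | ∃ f ∈ Set.range ff,
          (1/4 : ℝ) < |(1 / (m : ℝ)) * ∑ i ∈ Finset.range m, f (ω i) - ∫ y, f y ∂μ0|} := by
      filter_upwards [eventually_gt_atTop 0] with m hm
      exact fail m hm
    have h2 := ge_of_tendsto h h1
    exact absurd h2 (by simp)
  · intro ε hε
    have ht : Tendsto (fun k : ℕ => Real.sqrt ((1/2 : ℝ)^k)) atTop (𝓝 0) := by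
      have := (Real.continuous_sqrt.tendsto 0).comp (tendsto_pow_atTop_nhds_zero_of_lt_one (r := (1/2:ℝ)) (by norm_num) (by norm_num))
      rw [Real.sqrt_zero] at this
      exact this
    obtain ⟨N, hN⟩ := eventually_atTop.1 (ht.eventually (gt_mem_nhds hε))
    refine ⟨N, fun k hk l A S hA hS => ?_⟩
    exact (mixing ν μ0 measurable_T T_inv (1/2) (by norm_num) contr l k A S hA hS).trans (hN k hk).le
  · refine Set.infinite_range_of_injective ?_
    intro i j hij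
    by_contra hne
    have := congrFun hij (fun k => decide (k = i))
    simp [ff, Ne.symm hne] at this
  · rintro f ⟨j, rfl⟩
    refine ⟨measurable_ff j, fun x => ?_⟩
    by_cases hx : x j <;> simp [ff, hx]

end Pool.Agent.H0.UCEM
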